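import Pool.Agent.helper3.T6R.Spec

set_option autoImplicit false

/-!
# T6R, row RMN: the number of ideals, critical range
-/

namespace Pool.Agent.T6R

open Finset NumberField Pool.Agent.helper3.FT Pool.Agent.helper47.RA Pool.Agent.T5 Pool.Agent.T6
open scoped nonZeroDivisors

theorem RMN_count {K : Type} [Field K] [NumberField K] (Q : QF K) (κ N Y Y₂ H l c : ℝ)
    (hGS : (GSR Q κ N Y Y₂ H).Finite)
    (hP : ∀ a ∈ IMset Q Y l, ∃ P : Finset (𝓞 K), (∀ α ∈ P, (a, α) ∈ GSR Q κ N Y Y₂ H) ∧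
      c ≤ (P.card : ℝ)) :
    c * ((IMset Q Y l).ncard : ℝ) ≤ ((GSR Q κ N Y Y₂ H).ncard : ℝ) := by
  classical
  by_cases hIM : (IMset Q Y l).Finite
  · choose! P hP1 hP2 using hP
    have h1 : (hIM.toFinset.sigma fun a => P a).card ≤ hGS.toFinset.card := by
      refine Finset.card_le_card_of_injOn (fun x => (x.1, x.2)) ?_ ?_
      · rintro ⟨a, α⟩ hx
        rw [Finset.mem_coe, Finset.mem_sigma] at hx
        rw [Set.Finite.coe_toFinset]
        exact hP1 a ((Set.Finite.mem_toFinset hIM).1 hx.1) α hx.2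
      · rintro ⟨a, α⟩ _ ⟨a', α'⟩ _ h
        simp only [Prod.mk.injEq] at h
        obtain ⟨rfl, rfl⟩ := h
        rfl
    rw [Finset.card_sigma] at h1
    rw [Set.ncard_eq_toFinset_card _ hIM, Set.ncard_eq_toFinset_card _ hGS]
    have h2 : c * (hIM.toFinset.card : ℝ) ≤ ((∑ a ∈ hIM.toFinset, (P a).card : ℕ) : ℝ) := by
      push_cast
      rw [mul_comm, ← nsmul_eq_mul]
      exact Finset.card_nsmul_le_sum _ _ _ fun a ha => hP2 a ((Set.Finite.mem_toFinset hIM).1 ha)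
    exact h2.trans (by exact_mod_cast h1)
  · rw [Set.Infinite.ncard hIM]
    simp

theorem RMN (hRCN : RCN_stmt) (hRIN : RIN_stmt) : RMN_stmt := by
  classical
  rintro ⟨η, hη, hI⟩
  obtain ⟨A, η₁, N₁, hA, hη₁, hC⟩ := hRCN η hη
  have hA0 : 0 < A := by linarith
  obtain ⟨C₂, N₂, hC₂, hI2⟩ := hI (1 / 500) A (by norm_num) (by linarith)
  refine ⟨min η₁ (η / 4), C₂ * A, max (max N₁ N₂) (max 1 (A ^ (2 / η))), lt_min hη₁ (by linarith),
    ?_, ?_⟩
  · nlinarith
  intro N Y l hN hY1 hY2 hl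
  have hN1 : N₁ ≤ N := le_trans (le_trans (le_max_left _ _) (le_max_left _ _)) hN
  have hN2 : N₂ ≤ N := le_trans (le_trans (le_max_right _ _) (le_max_left _ _)) hN
  have hN3 : 1 ≤ N := le_trans (le_trans (le_max_left _ _) (le_max_right _ _)) hN
  have hN4 : A ^ (2 / η) ≤ N := le_trans (le_trans (le_max_right _ _) (le_max_right _ _)) hN
  have hN0 : 0 < N := lt_of_lt_of_le one_pos hN3
  have hsq : 0 < √N := Real.sqrt_pos.2 hN0
  have hsN : √N * √N = N := Real.mul_self_sqrt hN0.le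
  have hY0 : 0 < Y := lt_of_lt_of_le (Real.rpow_pos_of_pos hN0 _) hY1
  have hl0 : 0 < 2 * l := lt_of_lt_of_le hY0 hY2
  have hYs : Y ≤ 4 * √N := hY2.trans hl
  have hAη : A ≤ N ^ (η / 2) := by
    have h1 : (A ^ (2 / η)) ^ (η / 2) ≤ N ^ (η / 2) :=
      Real.rpow_le_rpow (Real.rpow_nonneg hA0.le _) hN4 (by linarith)
    rw [← Real.rpow_mul hA0.le] at h1
    have h2 : 2 / η * (η / 2) = 1 := by field_simp
    rwa [h2, Real.rpow_one] at h1
  have hYl : N ^ (1 / 2 - η / 4) ≤ Y := by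
    refine le_trans (Real.rpow_le_rpow_of_exponent_le hN3 ?_) hY1
    linarith [min_le_right η₁ (η / 4)]
  have hYl1 : N ^ (1 / 2 - η₁) ≤ 2 * l := by
    refine le_trans (Real.rpow_le_rpow_of_exponent_le hN3 ?_) (hY1.trans hY2)
    linarith [min_le_left η₁ (η / 4)]
  have hY2' : 4 * √N ≤ A * N / (2 * l) := by
    rw [le_div_iff₀ hl0]
    calc 4 * √N * (2 * l) ≤ 4 * √N * (4 * √N) := mul_le_mul_of_nonneg_left hl (by positivity)
      _ = 16 * N := by linear_combination 16 * hsN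
      _ ≤ A * N := mul_le_mul_of_nonneg_right hA hN0.le
  have hYY2 : Y ≤ A * N / (2 * l) := hYs.trans hY2'
  have hY2N : A * N / (2 * l) ≤ N ^ η * Y := by
    rw [div_le_iff₀ hl0]
    have h1 : A * N ≤ N ^ η * Y * Y := by
      have h2 : N ^ (1 - η / 2) ≤ Y * Y := by
        have h3 : N ^ (1 - η / 2) = N ^ (1 / 2 - η / 4) * N ^ (1 / 2 - η / 4) := by
          rw [← Real.rpow_add hN0]
          congr 1
          ring
        rw [h3]
        exact mul_le_mul hYl hYl (Real.rpow_nonneg hN0.le _) hY0.le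
      have h4 : N ^ (η / 2) * N = N ^ η * N ^ (1 - η / 2) := by
        rw [← Real.rpow_add hN0]
        nth_rw 2 [← Real.rpow_one N]
        rw [← Real.rpow_add hN0]
        congr 1
        ring
      calc A * N ≤ N ^ (η / 2) * N := mul_le_mul_of_nonneg_right hAη hN0.le
        _ = N ^ η * N ^ (1 - η / 2) := h4
        _ ≤ N ^ η * (Y * Y) := mul_le_mul_of_nonneg_left h2 (Real.rpow_nonneg hN0.le _)
        _ = N ^ η * Y * Y := by ring
    refine h1.trans ?_
    exact mul_le_mul_of_nonneg_left hY2 (mul_nonneg (Real.rpow_nonneg hN0.le _) hY0.le)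
  have hprod : Y * (A * N / (2 * l)) ≤ A * N := by
    rw [mul_div_assoc', div_le_iff₀ hl0]
    have : 0 ≤ A * N := by positivity
    nlinarith
  have hprod2 : N ^ (1 - η) ≤ Y * (A * N / (2 * l)) := by
    have h1 : N ^ (1 - η) ≤ N ^ (1 / 2 - η / 4) * √N := by
      rw [Real.sqrt_eq_rpow, ← Real.rpow_add hN0]
      refine Real.rpow_le_rpow_of_exponent_le hN3 ?_
      linarith
    exact h1.trans (mul_le_mul hYl (le_trans (by linarith) hY2') hsq.le hY0.le)
  obtain ⟨F, hF1, hF2⟩ := hRIN.2 (1 / 500) N Y (A * N / (2 * l)) (N ^ η)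
  have hF3 := hI2 N Y (A * N / (2 * l)) hN2 hYY2 hY2N hprod hprod2 F hF1
  have hle : √N / (2 * l) * ∑ D ∈ DNR N, SF (fun _ E => ((IMset E.Q Y l).ncard : ℝ)) D ≤
      ∑ D ∈ DNR N, SF (fun _ E =>
        ((GSR E.Q (1 / 500) N Y (A * N / (2 * l)) (N ^ η)).ncard : ℝ)) D := by
    rw [Finset.mul_sum]
    refine Finset.sum_le_sum fun D hD => ?_
    unfold DNR at hD
    rw [Finset.mem_filter, Finset.mem_Icc] at hD
    obtain ⟨⟨hD1, hD2⟩, -, hD3⟩ := hD
    unfold SF
    split_ifs with h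
    · have hQ : h.some.Q.D = D := h.some.hD
      refine RMN_count h.some.Q (1 / 500) N Y (A * N / (2 * l)) (N ^ η) l
        (√N / (2 * l)) (hRIN.1 _ _ _ _ _ _ _) fun a ha => ?_
      obtain ⟨θ, hθ⟩ := ha
      refine hC h.some.K h.some.Q N Y l a θ hN1 ?_ ?_ ?_ hYs hYl1 hl hθ
      · rw [hQ]
        omega
      · rw [hQ]
        exact hD3
      · rw [hQ]
        have h2 : (D : ℝ) ≤ (⌊N⌋ : ℤ) := by exact_mod_cast hD2
        exact h2.trans (Int.floor_le N)
    · rw [mul_zero]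
  have h3 := (hle.trans hF2).trans hF3
  have h4 : C₂ * (Y * (A * N / (2 * l))) = √N / (2 * l) * (C₂ * A * (√N * Y)) := by
    have h5 : √N / (2 * l) * (C₂ * A * (√N * Y)) = C₂ * A * Y * (√N * √N) / (2 * l) := by ring
    rw [h5, hsN]
    ring
  rw [h4] at h3
  exact le_of_mul_le_mul_left h3 (div_pos hsq hl0)

end Pool.Agent.T6R
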